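import Mathlib

/-!
# MP_26e61c_ag : claw tree group-based varieties are not cut out by prolongations

For every `n ≥ 4` and all but finitely many finite abelian groups. Everything is in the full ring
`ℂ[q_g : g ∈ G ^ n]`, with the ideals of the problem file.
-/

set_option autoImplicit false

open MvPolynomial

namespace Pool.Agent.Results.MP_26e61c_ag.EveryDegree

/-- The ring map `ℂ[q_g : g ∈ G ^ n] → ℂ[a^e_h]` of a tree with leaves `0, …, n - 1` and edges `e : E`;
`S e` is the set of leaves on the chosen side of the edge `e`. -/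
noncomputable def treeMap {G : Type} [AddCommGroup G] {n : ℕ} {E : Type} [Fintype E]
    (S : E → Finset (Fin n)) : MvPolynomial (Fin n → G) ℂ →ₐ[ℂ] MvPolynomial (E × G) ℂ :=
  open Classical in
  aeval fun g : Fin n → G => if ∑ l, g l = 0 then ∏ e, X (e, ∑ l ∈ S e, g l) else 0

/-- The ideal `I(X(T, G))` of the group-based model. -/
noncomputable def treeIdeal (G : Type) [AddCommGroup G] {n : ℕ} {E : Type} [Fintype E]
    (S : E → Finset (Fin n)) : Ideal (MvPolynomial (Fin n → G) ℂ) :=
  RingHom.ker (treeMap (G := G) S)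

/-- The claw tree `K_{1,n}`: one edge for each leaf `i`, with the side `{i}`. -/
def claw (n : ℕ) : Fin n → Finset (Fin n) := fun i => {i}

/-- The prolongation of `K_{1,n}` for the partition `A ⊔ Aᶜ` of the leaves: the inner edge `uv`
(with the side `A`), and one edge for each leaf `i` (with the side `{i}`). -/
def prolongation {n : ℕ} (A : Finset (Fin n)) : Option (Fin n) → Finset (Fin n)
  | none => A
  | some i => {i}

/-- Both parts of the partition `A ⊔ Aᶜ` are nonempty and the inner vertices `u`, `v`, of degrees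
`|A| + 1` and `|Aᶜ| + 1`, have degree at most `n - 1`. -/
def Admissible {n : ℕ} (A : Finset (Fin n)) : Prop :=
  A.Nonempty ∧ Aᶜ.Nonempty ∧ A.card + 1 ≤ n - 1 ∧ Aᶜ.card + 1 ≤ n - 1

/-- The sum of the ideals `I(X(T, G))` over all prolongations `T` of `K_{1,n}` in which every
vertex has degree at most `n - 1`. -/
noncomputable def prolongationSum (G : Type) [AddCommGroup G] (n : ℕ) :
    Ideal (MvPolynomial (Fin n → G) ℂ) :=
  ⨆ A : {A : Finset (Fin n) // Admissible A}, treeIdeal G (prolongation A.1)

/-- The saturation of the ideal `I` with respect to the irrelevant ideal `(q_g : g ∈ G ^ n)`. -/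
def saturation {G : Type} {n : ℕ} (I : Ideal (MvPolynomial (Fin n → G) ℂ)) :
    Set (MvPolynomial (Fin n → G) ℂ) :=
  {f | ∃ k : ℕ, ∀ h ∈ (Ideal.span (Set.range
    (X : (Fin n → G) → MvPolynomial (Fin n → G) ℂ))) ^ k, h * f ∈ I}

/-- There is a point of projective space which lies on `X(T, G)` for every prolongation `T` of the
claw `K_{1,n}` in which every vertex has degree at most `n - 1`, but at which some form of degree `d`
in `I(X(K_{1,n}, G))` does not vanish; and the saturation of the sum of the ideals `I(X(T, G))` is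
neither `I(X(K_{1,n}, G))` nor its saturation. -/
def Fails (G : Type) [AddCommGroup G] (n d : ℕ) : Prop :=
  (∃ x : (Fin n → G) → ℂ, x ≠ 0 ∧
    (∀ A : Finset (Fin n), Admissible A → ∀ p ∈ treeIdeal G (prolongation A), eval x p = 0) ∧
    ∃ f ∈ treeIdeal G (claw n), f.IsHomogeneous d ∧ eval x f ≠ 0) ∧
  saturation (prolongationSum G n) ≠ saturation (treeIdeal G (claw n)) ∧
  saturation (prolongationSum G n) ≠ (treeIdeal G (claw n) : Set _)

/-- A point as in the definition of `Fails` is enough. -/
theorem fails_of_point {G : Type} [AddCommGroup G] {n d : ℕ} (x : (Fin n → G) → ℂ)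
    (g₀ : Fin n → G) (hx : x g₀ ≠ 0)
    (hA : ∀ A : Finset (Fin n), Admissible A → ∀ p ∈ treeIdeal G (prolongation A), eval x p = 0)
    (f : MvPolynomial (Fin n → G) ℂ) (f_mem : f ∈ treeIdeal G (claw n)) (hd : f.IsHomogeneous d)
    (hf : eval x f ≠ 0) : Fails G n d := by
  have hsat : f ∉ saturation (prolongationSum G n) := by
    rintro ⟨k, hk⟩
    have hX : (X g₀ : MvPolynomial (Fin n → G) ℂ) ^ k ∈ (Ideal.span (Set.range
        (X : (Fin n → G) → MvPolynomial (Fin n → G) ℂ))) ^ k :=
      Ideal.pow_mem_pow (Ideal.subset_span (Set.mem_range_self g₀)) k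
    have h1 := hk _ hX
    have hle : prolongationSum G n ≤ RingHom.ker (eval x) := by
      apply iSup_le
      rintro ⟨A, hA'⟩ p hp
      exact hA A hA' p hp
    have h2 := hle h1
    rw [RingHom.mem_ker, map_mul, map_pow, eval_X] at h2
    exact mul_ne_zero (pow_ne_zero k hx) hf h2
  refine ⟨⟨x, ?_, hA, f, f_mem, hd, hf⟩, ?_, ?_⟩
  · intro h
    exact hx (congrFun h g₀)
  · intro h
    apply hsat
    rw [h]
    exact ⟨0, fun q _ => Ideal.mul_mem_left _ _ f_mem⟩
  · intro h
    apply hsat
    rw [h]
    exact f_mem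

/-! ### The group `ℤ/12` and `n = 4` -/

/-- Allowed coordinates of the point. -/
def supp (i : Fin 4) : List (ZMod 12) :=
  match i with
  | 0 => [0, 1, 3]
  | 1 => [0, 4, 1]
  | 2 => [0, 10, 4]
  | 3 => [0, 9, 4]

/-- Parameters of the point as a point of the prolongation `A`. -/
def par (A : Finset (Fin 4)) (p : Option (Fin 4) × ZMod 12) : ℕ :=
  match p with
  | (none, h) =>
      if A = {0, 1} then (if h = 5 then 2 else 1)
      else if A = {2, 3} then (if h = 7 then 2 else 1)
      else if A = {0, 2} then (if h = 0 then 2 else 1)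
      else if A = {1, 3} then (if h = 0 then 2 else 1)
      else if A = {0, 3} then (if h = 10 then 2 else 1)
      else (if h = 2 then 2 else 1)
  | (some i, h) =>
      if h ∈ supp i then
        (if (A = {0, 2} ∨ A = {1, 3}) then (if i = 2 ∧ h = 10 then 2 else 1)
         else (if i = 3 ∧ h = 0 then 2 else 1))
      else 0

/-- The point (as natural numbers, on the zero-sum `g`). -/
def pt (g : Fin 4 → ZMod 12) : ℕ :=
  par {0, 1} (none, ∑ i ∈ ({0, 1} : Finset (Fin 4)), g i) * ∏ i, par {0, 1} (some i, g i)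

theorem key : ∀ A : Finset (Fin 4), A.card = 2 → ∀ a b c : ZMod 12,
    par A (none, ∑ i ∈ A, (![a, b, c, -(a + b + c)] : Fin 4 → ZMod 12) i) *
      ∏ i, par A (some i, (![a, b, c, -(a + b + c)] : Fin 4 → ZMod 12) i) =
    pt ![a, b, c, -(a + b + c)] := by
  decide +kernel

theorem key' (A : Finset (Fin 4)) (hA : A.card = 2) (g : Fin 4 → ZMod 12)
    (hg : ∑ i, g i = 0) :
    par A (none, ∑ i ∈ A, g i) * ∏ i, par A (some i, g i) = pt g := by
  have h := key A hA (g 0) (g 1) (g 2)
  have e : (![g 0, g 1, g 2, -(g 0 + g 1 + g 2)] : Fin 4 → ZMod 12) = g := by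
    funext i
    rw [Fin.sum_univ_four] at hg
    fin_cases i
    · rfl
    · rfl
    · rfl
    · show -(g 0 + g 1 + g 2) = g 3
      exact neg_eq_of_add_eq_zero_right hg
  rw [e] at h
  exact h

def s1 : Fin 4 → ZMod 12 := ![0, 0, 0, 0]
def s2 : Fin 4 → ZMod 12 := ![1, 4, 10, 9]
def s3 : Fin 4 → ZMod 12 := ![3, 1, 4, 4]
def r1 : Fin 4 → ZMod 12 := ![1, 1, 10, 0]
def r2 : Fin 4 → ZMod 12 := ![3, 0, 0, 9]
def r3 : Fin 4 → ZMod 12 := ![0, 4, 4, 4]

theorem pt_s1 : pt s1 = 2 := by decide +kernel
theorem pt_s2 : pt s2 = 2 := by decide +kernel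
theorem pt_s3 : pt s3 = 1 := by decide +kernel
theorem pt_r1 : pt r1 = 2 := by decide +kernel
theorem pt_r2 : pt r2 = 1 := by decide +kernel
theorem pt_r3 : pt r3 = 1 := by decide +kernel

theorem sum_s1 : ∑ l, s1 l = 0 := by decide +kernel
theorem sum_s2 : ∑ l, s2 l = 0 := by decide +kernel
theorem sum_s3 : ∑ l, s3 l = 0 := by decide +kernel
theorem sum_r1 : ∑ l, r1 l = 0 := by decide +kernel
theorem sum_r2 : ∑ l, r2 l = 0 := by decide +kernel
theorem sum_r3 : ∑ l, r3 l = 0 := by decide +kernel

open Classical in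
/-- The point in `ℂ ^ (G ^ 4)`. -/
noncomputable def x (g : Fin 4 → ZMod 12) : ℂ := if ∑ l, g l = 0 then (pt g : ℂ) else 0

/-- The cubic binomial. -/
noncomputable def f : MvPolynomial (Fin 4 → ZMod 12) ℂ := X s1 * X s2 * X s3 - X r1 * X r2 * X r3

theorem f_hom : f.IsHomogeneous 3 := by
  unfold f
  apply IsHomogeneous.sub
  · exact ((isHomogeneous_X ℂ s1).mul (isHomogeneous_X ℂ s2)).mul (isHomogeneous_X ℂ s3)
  · exact ((isHomogeneous_X ℂ r1).mul (isHomogeneous_X ℂ r2)).mul (isHomogeneous_X ℂ r3)

theorem claw_X (g : Fin 4 → ZMod 12) (hg : ∑ l, g l = 0) :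
    treeMap (G := ZMod 12) (claw 4) (X g) =
      X (0, g 0) * X (1, g 1) * X (2, g 2) * X (3, g 3) := by
  rw [treeMap, aeval_X, if_pos hg, Fin.prod_univ_four]
  simp only [claw, Finset.sum_singleton]

theorem f_mem : f ∈ treeIdeal (ZMod 12) (claw 4) := by
  rw [treeIdeal, RingHom.mem_ker]
  rw [f, map_sub, map_mul, map_mul, map_mul, map_mul, claw_X _ sum_s1, claw_X _ sum_s2,
    claw_X _ sum_s3, claw_X _ sum_r1, claw_X _ sum_r2, claw_X _ sum_r3]
  simp only [s1, s2, s3, r1, r2, r3, Matrix.cons_val_zero, Matrix.cons_val_one, Matrix.cons_val]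
  ring

theorem eval_f : eval x f = 2 := by
  simp only [f, x, map_sub, map_mul, eval_X, sum_s1, sum_s2, sum_s3, sum_r1, sum_r2, sum_r3,
    if_true, pt_s1, pt_s2, pt_s3, pt_r1, pt_r2, pt_r3]
  norm_num

theorem eval_prol (A : Finset (Fin 4)) (hA : A.card = 2) (p : MvPolynomial (Fin 4 → ZMod 12) ℂ)
    (hp : p ∈ treeIdeal (ZMod 12) (prolongation A)) : eval x p = 0 := by
  rw [treeIdeal, RingHom.mem_ker] at hp
  have hcomp : (aeval x : MvPolynomial (Fin 4 → ZMod 12) ℂ →ₐ[ℂ] ℂ) =
      (aeval (R := ℂ) (fun q : Option (Fin 4) × ZMod 12 => ((par A q : ℕ) : ℂ))).comp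
        (treeMap (G := ZMod 12) (prolongation A)) := by
    apply MvPolynomial.algHom_ext
    intro g
    simp only [treeMap, aeval_X, AlgHom.comp_apply, x]
    split_ifs with hg
    · rw [← key' A hA g hg, map_prod, Fintype.prod_option]
      simp only [aeval_X, prolongation, Finset.sum_singleton]
      push_cast
      rfl
    · simp
  rw [← coe_aeval_eq_eval]
  change (aeval x : MvPolynomial (Fin 4 → ZMod 12) ℂ →ₐ[ℂ] ℂ) p = 0
  rw [hcomp, AlgHom.comp_apply]
  have hp' : (treeMap (G := ZMod 12) (prolongation A)) p = 0 := hp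
  rw [hp', map_zero]

theorem card_of_admissible (A : Finset (Fin 4)) (hA : Admissible A) : A.card = 2 := by
  obtain ⟨-, -, h1, h2⟩ := hA
  rw [Finset.card_compl, Fintype.card_fin] at h2
  omega

theorem fails_twelve : Fails (ZMod 12) 4 3 := by
  refine fails_of_point x s1 ?_ (fun A hA p hp => eval_prol A (card_of_admissible A hA) p hp)
    f f_mem f_hom ?_
  · rw [x, if_pos sum_s1, pt_s1]
    norm_num
  · rw [eval_f]
    norm_num

/-! ### Counting -/

/-- Less than `|G|` surjective homomorphisms `V → G` have a common non-zero. -/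
theorem exists_common {V G ι : Type} [AddCommGroup V] [AddCommGroup G] [Finite V] [Fintype ι]
    (φ : ι → V →+ G) (hs : ∀ i, Function.Surjective (φ i)) (hc : Fintype.card ι < Nat.card G) :
    ∃ v : V, ∀ i, φ i v ≠ 0 := by
  classical
  by_contra hcon
  push Not at hcon
  have : Fintype V := Fintype.ofFinite V
  have hG : 0 < Nat.card G := by omega
  have hk : ∀ i, (Finset.univ.filter fun v : V => φ i v = 0).card * Nat.card G =
      Fintype.card V := by
    intro i
    have h1 := (φ i).ker.card_mul_index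
    rw [AddSubgroup.index_ker] at h1
    have h2 : Nat.card (φ i).range = Nat.card G := by
      rw [AddMonoidHom.range_eq_top.2 (hs i)]
      exact Nat.card_congr AddSubgroup.topEquiv.toEquiv
    rw [h2, Nat.card_eq_fintype_card (α := V)] at h1
    rw [← h1]
    congr 1
    rw [Nat.card_eq_fintype_card, Fintype.card_subtype]
    congr 1
    ext v
    simp [AddMonoidHom.mem_ker]
  have hcov : (Finset.univ : Finset V) ⊆
      Finset.univ.biUnion fun i : ι => Finset.univ.filter fun v : V => φ i v = 0 := by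
    intro v _
    obtain ⟨i, hi⟩ := hcon v
    simp only [Finset.mem_biUnion, Finset.mem_filter, Finset.mem_univ, true_and]
    exact ⟨i, hi⟩
  have h3 := (Finset.card_le_card hcov).trans Finset.card_biUnion_le
  rw [Finset.card_univ] at h3
  have h4 : Fintype.card V * Nat.card G ≤ Fintype.card ι * Fintype.card V := by
    calc Fintype.card V * Nat.card G
        ≤ (∑ i : ι, (Finset.univ.filter fun v : V => φ i v = 0).card) * Nat.card G :=
          Nat.mul_le_mul_right _ h3
      _ = ∑ i : ι, Fintype.card V := by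
          rw [Finset.sum_mul]
          exact Finset.sum_congr rfl fun i _ => hk i
      _ = Fintype.card ι * Fintype.card V := by
          rw [Finset.sum_const, Finset.card_univ, smul_eq_mul]
  have h5 : 0 < Fintype.card V := Fintype.card_pos_iff.2 ⟨0⟩
  have h6 : Fintype.card ι * Fintype.card V < Nat.card G * Fintype.card V :=
    Nat.mul_lt_mul_of_pos_right hc h5
  rw [mul_comm (Nat.card G)] at h6
  omega

/-! ### Matrices with zero row and column sums -/

section Mat

variable {G : Type} [AddCommGroup G] {n : ℕ} [NeZero n]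

/-- The square matrices over `G` with zero row and column sums. -/
def ZM (n : ℕ) (G : Type) [AddCommGroup G] : AddSubgroup (Fin n → Fin n → G) where
  carrier := {v | (∀ j, ∑ k, v j k = 0) ∧ ∀ k, ∑ j, v j k = 0}
  add_mem' := by
    rintro v w ⟨h1, h2⟩ ⟨h3, h4⟩
    refine ⟨fun j => ?_, fun k => ?_⟩
    · simp only [Pi.add_apply, Finset.sum_add_distrib, h1, h3, add_zero]
    · simp only [Pi.add_apply, Finset.sum_add_distrib, h2, h4, add_zero]
  zero_mem' := by
    refine ⟨fun j => ?_, fun k => ?_⟩ <;> simp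
  neg_mem' := by
    rintro v ⟨h1, h2⟩
    refine ⟨fun j => ?_, fun k => ?_⟩
    · simp only [Pi.neg_apply, Finset.sum_neg_distrib, h1, neg_zero]
    · simp only [Pi.neg_apply, Finset.sum_neg_distrib, h2, neg_zero]

/-- The tuple of the row `j`. -/
def row (v : Fin n → Fin n → G) (j : Fin n) : Fin n → G := fun i => v j (i - j)

/-- The tuple of the column `k`. -/
def col (v : Fin n → Fin n → G) (k : Fin n) : Fin n → G := fun i => v (i - k) k

theorem sum_row {v : Fin n → Fin n → G} (hv : v ∈ ZM n G) (j : Fin n) : ∑ i, row v j i = 0 := by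
  rw [← hv.1 j]
  exact Equiv.sum_comp (Equiv.subRight j) (fun k => v j k)

theorem sum_col {v : Fin n → Fin n → G} (hv : v ∈ ZM n G) (k : Fin n) : ∑ i, col v k i = 0 := by
  rw [← hv.2 k]
  exact Equiv.sum_comp (Equiv.subRight k) (fun j => v j k)

/-- The vector with `g` at `k` and `-g` at `k'`. -/
def wv (k k' : Fin n) (g : G) : Fin n → G := Pi.single k g - Pi.single k' g

/-- The matrix with `g` at `(j, k)`, `(j', k')` and `-g` at `(j, k')`, `(j', k)`. -/
def um (j k j' k' : Fin n) (g : G) : Fin n → Fin n → G :=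
  Pi.single j (wv k k' g) - Pi.single j' (wv k k' g)

omit [NeZero n] in
theorem um_mem (j k j' k' : Fin n) (g : G) : um j k j' k' g ∈ ZM n G := by
  have hw : ∑ a, wv k k' g a = 0 := by
    simp [wv, Finset.sum_sub_distrib]
  refine ⟨fun a => ?_, fun b => ?_⟩
  · have h : ∀ c, ∑ b, (Pi.single c (wv k k' g) : Fin n → Fin n → G) a b = 0 := by
      intro c
      by_cases h : a = c
      · subst h
        simp only [Pi.single_eq_same, hw]
      · simp only [Pi.single_eq_of_ne h, Pi.zero_apply, Finset.sum_const_zero]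
    simp only [um, Pi.sub_apply, Finset.sum_sub_distrib, h, sub_zero]
  · have h : ∀ c, ∑ a, (Pi.single c (wv k k' g) : Fin n → Fin n → G) a b = wv k k' g b := by
      intro c
      rw [Finset.sum_eq_single c]
      · rw [Pi.single_eq_same]
      · intro a _ ha
        rw [Pi.single_eq_of_ne ha, Pi.zero_apply]
      · simp
    simp only [um, Pi.sub_apply, Finset.sum_sub_distrib, h, sub_self]

omit [NeZero n] in
theorem um_apply (j k j' k' : Fin n) (g : G) (a b : Fin n) : um j k j' k' g a b =
    (if a = j then wv k k' g b else 0) - (if a = j' then wv k k' g b else 0) := by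
  unfold um
  simp only [Pi.sub_apply]
  congr 1
  · by_cases h : a = j
    · subst h; simp
    · simp [h]
  · by_cases h : a = j'
    · subst h; simp
    · simp [h]

omit [NeZero n] in
theorem wv_apply (k k' : Fin n) (g : G) (b : Fin n) : wv k k' g b =
    (if b = k then g else 0) - (if b = k' then g else 0) := by
  unfold wv
  simp only [Pi.sub_apply, Pi.single_apply]

/-- Neither all rows nor all columns of the chosen places are equal. -/
def NonStar (e : Fin n → Fin n) : Prop :=
  (¬ ∃ j, ∀ i, e i = j) ∧ ¬ ∃ k, ∀ i, i - e i = k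

theorem exists_minor (hn : 3 ≤ n) {e : Fin n → Fin n} (he : NonStar e) (j k : Fin n)
    (_hjk : e (j + k) = j) : ∃ j' k', e (j + k') ≠ j ∧ e (j' + k) ≠ j' ∧ e (j' + k') ≠ j' := by
  by_contra hcon
  push Not at hcon
  have h1 : ∃ k0, e (j + k0) ≠ j := by
    by_contra h
    push Not at h
    apply he.1
    refine ⟨j, fun i => ?_⟩
    have := h (i - j)
    rwa [add_sub_cancel] at this
  have h2 : ∃ j0, e (j0 + k) ≠ j0 := by
    by_contra h
    push Not at h
    apply he.2
    refine ⟨k, fun i => ?_⟩
    have := h (i - k)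
    rw [sub_add_cancel] at this
    rw [this, sub_sub_cancel]
  obtain ⟨k0, hk0⟩ := h1
  obtain ⟨j0, hj0⟩ := h2
  have hsec : ∀ c : Fin n, ∃ i, i - e i = c ∧ (e i = j ∨ e i = j0) := by
    intro c
    by_cases h : e (j + c) = j
    · exact ⟨j + c, by rw [h, add_sub_cancel_left], Or.inl h⟩
    · have h3 := hcon j0 c h hj0
      exact ⟨j0 + c, by rw [h3, add_sub_cancel_left], Or.inr h3⟩
  have hsurj : Function.Surjective fun i : Fin n => i - e i := fun c =>
    let ⟨i, hi, _⟩ := hsec c
    ⟨i, hi⟩
  have hinj : Function.Injective fun i : Fin n => i - e i := Finite.injective_iff_surjective.2 hsurj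
  have htwo : ∀ i, e i = j ∨ e i = j0 := by
    intro i
    obtain ⟨i', hi', h⟩ := hsec (i - e i)
    have : i' = i := hinj hi'
    rwa [this] at h
  have hesurj : ∀ r, ∃ i, e i = r := by
    intro r
    by_cases h : e (r + k) = r
    · exact ⟨_, h⟩
    · exact ⟨_, hcon r k0 hk0 h⟩
  have hcard : Fintype.card (Fin n) ≤ ({j, j0} : Finset (Fin n)).card := by
    rw [← Finset.card_univ]
    apply Finset.card_le_card
    intro r _
    obtain ⟨i, rfl⟩ := hesurj r
    rw [Finset.mem_insert, Finset.mem_singleton]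
    exact htwo i
  have := hcard.trans Finset.card_le_two
  rw [Fintype.card_fin] at this
  omega

/-- The functional of a choice of places. -/
def phi (e : Fin n → Fin n) : ZM n G →+ G where
  toFun v := ∑ i, v.1 (e i) (i - e i)
  map_zero' := by simp
  map_add' := by
    intro v w
    simp [Finset.sum_add_distrib]

theorem phi_surjective (hn : 3 ≤ n) {e : Fin n → Fin n} (he : NonStar e) :
    Function.Surjective (phi e : ZM n G →+ G) := by
  intro g
  obtain ⟨j', k', h1, h2, h3⟩ := exists_minor hn he (e 0) (0 - e 0) (by rw [add_sub_cancel])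
  refine ⟨⟨um (e 0) (0 - e 0) j' k' g, um_mem _ _ _ _ _⟩, ?_⟩
  change ∑ i, um (e 0) (0 - e 0) j' k' g (e i) (i - e i) = g
  have key : ∀ i, um (e 0) (0 - e 0) j' k' g (e i) (i - e i) = if i = 0 then g else 0 := by
    intro i
    rw [um_apply, wv_apply]
    by_cases hi : i = 0
    · subst hi
      have a1 : (0 : Fin n) - e 0 ≠ k' := by
        intro h
        apply h1
        rw [← h, add_sub_cancel]
      have a2 : e 0 ≠ j' := by
        intro h
        apply h2
        rw [← h, add_sub_cancel]
      rw [if_pos rfl, if_pos rfl, if_neg a1, if_neg a2, if_pos rfl]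
      simp
    · rw [if_neg hi]
      by_cases hj : e i = e 0
      · have b1 : i - e i ≠ 0 - e 0 := by
          intro h
          rw [hj] at h
          exact hi (sub_left_injective h)
        have b2 : i - e i ≠ k' := by
          intro h
          apply h1
          rw [← h, ← hj, add_sub_cancel]
        rw [if_pos hj, if_neg b1, if_neg b2]
        simp
      · rw [if_neg hj]
        by_cases hj' : e i = j'
        · have b1 : i - e i ≠ 0 - e 0 := by
            intro h
            apply h2
            rw [← h, ← hj', add_sub_cancel]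
          have b2 : i - e i ≠ k' := by
            intro h
            apply h3
            rw [← h, ← hj', add_sub_cancel]
          rw [if_pos hj', if_neg b1, if_neg b2]
          simp
        · rw [if_neg hj']
          simp
  rw [Finset.sum_congr rfl fun i _ => key i]
  simp

/-- The difference of the partial sums of the row `0` and of the row `j`. -/
def psiRow (A : Finset (Fin n)) (j : Fin n) : ZM n G →+ G where
  toFun v := ∑ i ∈ A, (row v.1 0 i - row v.1 j i)
  map_zero' := by simp [row]
  map_add' := by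
    intro v w
    rw [← Finset.sum_add_distrib]
    refine Finset.sum_congr rfl fun i _ => ?_
    simp only [row, AddSubgroup.coe_add, Pi.add_apply]
    abel

/-- The difference of the partial sums of the row `0` and of the column `k`. -/
def psiCol (A : Finset (Fin n)) (k : Fin n) : ZM n G →+ G where
  toFun v := ∑ i ∈ A, (row v.1 0 i - col v.1 k i)
  map_zero' := by simp [row, col]
  map_add' := by
    intro v w
    rw [← Finset.sum_add_distrib]
    refine Finset.sum_congr rfl fun i _ => ?_
    simp only [row, col, AddSubgroup.coe_add, Pi.add_apply]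
    abel

omit [NeZero n] in
theorem card_adm {A : Finset (Fin n)} (hA : Admissible A) : 1 < A.card ∧ 1 < Aᶜ.card := by
  obtain ⟨-, -, h1, h2⟩ := hA
  have := Finset.card_compl_add_card A
  rw [Fintype.card_fin] at this
  omega

theorem psiRow_surjective (hn : 3 ≤ n) {A : Finset (Fin n)} (hA : Admissible A) {j : Fin n}
    (hj : j ≠ 0) : Function.Surjective (psiRow A j : ZM n G →+ G) := by
  intro g
  obtain ⟨k, hk⟩ := hA.1
  obtain ⟨k', hk'⟩ := hA.2.1
  rw [Finset.mem_compl] at hk'
  obtain ⟨j', hj'⟩ : ∃ j' : Fin n, j' ∉ ({0, j} : Finset (Fin n)) := by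
    by_contra h
    push Not at h
    have h1 : Fintype.card (Fin n) ≤ ({0, j} : Finset (Fin n)).card := by
      rw [← Finset.card_univ]
      exact Finset.card_le_card fun a _ => h a
    have := h1.trans Finset.card_le_two
    rw [Fintype.card_fin] at this
    omega
  rw [Finset.mem_insert, Finset.mem_singleton, not_or] at hj'
  refine ⟨⟨um 0 k j' k' g, um_mem _ _ _ _ _⟩, ?_⟩
  change ∑ i ∈ A, (um 0 k j' k' g 0 (i - 0) - um 0 k j' k' g j (i - j)) = g
  have key : ∀ i ∈ A, (um 0 k j' k' g 0 (i - 0) - um 0 k j' k' g j (i - j)) =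
      if i = k then g else 0 := by
    intro i hi
    have h1 : i ≠ k' := by rintro rfl; exact hk' hi
    rw [um_apply, um_apply, if_pos rfl, if_neg hj, if_neg (Ne.symm hj'.1), if_neg (Ne.symm hj'.2),
      sub_zero i, wv_apply, if_neg h1]
    simp
  rw [Finset.sum_congr rfl key, Finset.sum_ite_eq', if_pos hk]

theorem psiCol_surjective (hn : 3 ≤ n) {A : Finset (Fin n)} (hA : Admissible A) (k₀ : Fin n) :
    Function.Surjective (psiCol A k₀ : ZM n G →+ G) := by
  intro g
  obtain ⟨k, hk, hkk⟩ := Finset.exists_mem_ne (card_adm hA).1 k₀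
  obtain ⟨k', hk', hkk'⟩ := Finset.exists_mem_ne (card_adm hA).2 k₀
  rw [Finset.mem_compl] at hk'
  obtain ⟨j', hj'⟩ : ∃ j' : Fin n, j' ≠ 0 := by
    have : Nontrivial (Fin n) := Fin.nontrivial_iff_two_le.2 (by omega)
    exact exists_ne 0
  refine ⟨⟨um 0 k j' k' g, um_mem _ _ _ _ _⟩, ?_⟩
  change ∑ i ∈ A, (um 0 k j' k' g 0 (i - 0) - um 0 k j' k' g (i - k₀) k₀) = g
  have key : ∀ i ∈ A, (um 0 k j' k' g 0 (i - 0) - um 0 k j' k' g (i - k₀) k₀) =
      if i = k then g else 0 := by
    intro i hi
    have h1 : i ≠ k' := by rintro rfl; exact hk' hi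
    rw [um_apply, um_apply, if_pos rfl, if_neg (Ne.symm hj'), sub_zero i, wv_apply, if_neg h1,
      wv_apply, if_neg (Ne.symm hkk), if_neg (Ne.symm hkk')]
    simp
  rw [Finset.sum_congr rfl key, Finset.sum_ite_eq', if_pos hk]

/-- The index set of the functionals. -/
abbrev Idx (n : ℕ) [NeZero n] : Type :=
  {e : Fin n → Fin n // NonStar e} ⊕
    ({A : Finset (Fin n) // Admissible A} × ({j : Fin n // j ≠ 0} ⊕ Fin n))

open Classical in
theorem card_idx : Fintype.card (Idx n) ≤ n ^ n + 2 * n * 2 ^ n := by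
  rw [Fintype.card_sum, Fintype.card_prod, Fintype.card_sum]
  have h1 : Fintype.card {e : Fin n → Fin n // NonStar e} ≤ n ^ n := by
    refine (Fintype.card_subtype_le _).trans ?_
    rw [Fintype.card_fun, Fintype.card_fin]
  have h2 : Fintype.card {A : Finset (Fin n) // Admissible A} ≤ 2 ^ n := by
    refine (Fintype.card_subtype_le _).trans ?_
    rw [Fintype.card_finset, Fintype.card_fin]
  have h3 : Fintype.card {j : Fin n // j ≠ 0} ≤ n := by
    refine (Fintype.card_subtype_le _).trans ?_
    rw [Fintype.card_fin]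
  rw [Fintype.card_fin]
  have h4 : Fintype.card {A : Finset (Fin n) // Admissible A} *
      (Fintype.card {j : Fin n // j ≠ 0} + n) ≤ 2 ^ n * (n + n) :=
    Nat.mul_le_mul h2 (by omega)
  have h5 : 2 ^ n * (n + n) = 2 * n * 2 ^ n := by ring
  omega

/-- A matrix at which no functional vanishes. -/
theorem exists_generic [Finite G] (hn : 3 ≤ n) (hG : n ^ n + 2 * n * 2 ^ n < Nat.card G) :
    ∃ v ∈ ZM n G, (∀ e : Fin n → Fin n, NonStar e → ∑ i, v (e i) (i - e i) ≠ 0) ∧
      ∀ A : Finset (Fin n), Admissible A →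
        (∀ j, j ≠ 0 → ∑ i ∈ A, row v j i ≠ ∑ i ∈ A, row v 0 i) ∧
        ∀ k, ∑ i ∈ A, col v k i ≠ ∑ i ∈ A, row v 0 i := by
  classical
  obtain ⟨v, hv⟩ := exists_common (V := ZM n G) (G := G) (ι := Idx n)
    (fun x => match x with
      | Sum.inl e => phi e.1
      | Sum.inr (A, Sum.inl j) => psiRow A.1 j.1
      | Sum.inr (A, Sum.inr k) => psiCol A.1 k)
    (by
      rintro (e | ⟨A, j | k⟩)
      · exact phi_surjective hn e.2
      · exact psiRow_surjective hn A.2 j.2
      · exact psiCol_surjective hn A.2 k)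
    (lt_of_le_of_lt card_idx hG)
  refine ⟨v.1, v.2, fun e he => hv (Sum.inl ⟨e, he⟩), fun A hA => ⟨fun j hj h => ?_, fun k h => ?_⟩⟩
  · apply hv (Sum.inr (⟨A, hA⟩, Sum.inl ⟨j, hj⟩))
    change ∑ i ∈ A, (row v.1 0 i - row v.1 j i) = 0
    rw [Finset.sum_sub_distrib, h, sub_self]
  · apply hv (Sum.inr (⟨A, hA⟩, Sum.inr k))
    change ∑ i ∈ A, (row v.1 0 i - col v.1 k i) = 0
    rw [Finset.sum_sub_distrib, h, sub_self]

end Mat

/-! ### The point -/

section Point

variable {G : Type} [AddCommGroup G] {n : ℕ} [NeZero n] (v : Fin n → Fin n → G)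

/-- The values of the coordinate `i`. -/
def Val (i : Fin n) (h : G) : Prop := ∃ j, h = v j (i - j)

open Classical in
/-- The point. -/
noncomputable def P (g : Fin n → G) : ℂ :=
  if ∑ i, g i = 0 then (if ∀ i, Val v i (g i) then (if g = row v 0 then 2 else 1) else 0) else 0

open Classical in
/-- The parameters of the point on `X(T, G)`. -/
noncomputable def Q (A : Finset (Fin n)) (p : Option (Fin n) × G) : ℂ :=
  match p with
  | (none, h) => if h = ∑ i ∈ A, row v 0 i then 2 else 1
  | (some i, h) => if Val v i h then 1 else 0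

/-- The binomial. -/
noncomputable def F : MvPolynomial (Fin n → G) ℂ := ∏ j, X (row v j) - ∏ k, X (col v k)

omit [AddCommGroup G] [NeZero n] in
theorem F_hom : (F v).IsHomogeneous n := by
  unfold F
  have h1 : ∑ _i : Fin n, 1 = n := by simp
  apply IsHomogeneous.sub
  · have := IsHomogeneous.prod (Finset.univ : Finset (Fin n))
      (fun j => (X (row v j) : MvPolynomial (Fin n → G) ℂ)) (fun _ => 1)
      (fun j _ => isHomogeneous_X ℂ _)
    rwa [h1] at this
  · have := IsHomogeneous.prod (Finset.univ : Finset (Fin n))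
      (fun j => (X (col v j) : MvPolynomial (Fin n → G) ℂ)) (fun _ => 1)
      (fun j _ => isHomogeneous_X ℂ _)
    rwa [h1] at this

variable {v}

theorem F_mem (hv : v ∈ ZM n G) : F v ∈ treeIdeal G (claw n) := by
  rw [treeIdeal, RingHom.mem_ker]
  have hX : ∀ g : Fin n → G, ∑ l, g l = 0 →
      treeMap (G := G) (claw n) (X g) = ∏ i, X (i, g i) := by
    intro g hg
    rw [treeMap, aeval_X, if_pos hg]
    simp only [claw, Finset.sum_singleton]
  rw [F, map_sub, map_prod, map_prod, sub_eq_zero]
  rw [Finset.prod_congr rfl fun j _ => hX _ (sum_row hv j),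
    Finset.prod_congr rfl fun k _ => hX _ (sum_col hv k)]
  rw [Finset.prod_comm, Finset.prod_comm (s := Finset.univ) (t := Finset.univ)
    (f := fun k i => (X (i, col v k i) : MvPolynomial (Fin n × G) ℂ))]
  refine Finset.prod_congr rfl fun i _ => ?_
  rw [← Equiv.prod_comp (Equiv.subLeft i)]
  refine Finset.prod_congr rfl fun k _ => ?_
  simp only [row, col, Equiv.subLeft_apply, sub_sub_cancel]

omit [AddCommGroup G] [NeZero n] in
theorem val_row (j i : Fin n) : Val v i (row v j i) := ⟨j, rfl⟩

omit [AddCommGroup G] in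
theorem val_col (k i : Fin n) : Val v i (col v k i) := ⟨i - k, by rw [sub_sub_cancel]; rfl⟩

theorem classify (hgen : ∀ e : Fin n → Fin n, NonStar e → ∑ i, v (e i) (i - e i) ≠ 0)
    {g : Fin n → G} (hg : ∑ i, g i = 0) (hval : ∀ i, Val v i (g i)) :
    (∃ j, g = row v j) ∨ ∃ k, g = col v k := by
  choose e he using hval
  by_cases hs : NonStar e
  · exfalso
    apply hgen e hs
    rw [← hg]
    exact Finset.sum_congr rfl fun i _ => (he i).symm
  · unfold NonStar at hs
    rw [not_and_or, not_not, not_not] at hs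
    rcases hs with ⟨j, hj⟩ | ⟨k, hk⟩
    · left
      refine ⟨j, funext fun i => ?_⟩
      rw [he i, hj i]
      rfl
    · right
      refine ⟨k, funext fun i => ?_⟩
      have h1 : e i = i - k := by rw [← hk i, sub_sub_cancel]
      rw [he i, h1, sub_sub_cancel]
      rfl

theorem eval_prol' (hgen : ∀ e : Fin n → Fin n, NonStar e → ∑ i, v (e i) (i - e i) ≠ 0)
    {A : Finset (Fin n)}
    (hA1 : ∀ j, j ≠ 0 → ∑ i ∈ A, row v j i ≠ ∑ i ∈ A, row v 0 i)
    (hA2 : ∀ k, ∑ i ∈ A, col v k i ≠ ∑ i ∈ A, row v 0 i)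
    (p : MvPolynomial (Fin n → G) ℂ) (hp : p ∈ treeIdeal G (prolongation A)) :
    eval (P v) p = 0 := by
  classical
  rw [treeIdeal, RingHom.mem_ker] at hp
  have hcomp : (aeval (P v) : MvPolynomial (Fin n → G) ℂ →ₐ[ℂ] ℂ) =
      (aeval (R := ℂ) (Q v A)).comp (treeMap (G := G) (prolongation A)) := by
    apply MvPolynomial.algHom_ext
    intro g
    simp only [treeMap, aeval_X, AlgHom.comp_apply, P]
    split_ifs with hg hval heq
    · rw [map_prod, Fintype.prod_option]
      simp only [aeval_X, prolongation, Finset.sum_singleton, Q]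
      rw [if_pos (by rw [heq]), Finset.prod_congr rfl fun i _ => if_pos (hval i)]
      simp
    · rw [map_prod, Fintype.prod_option]
      simp only [aeval_X, prolongation, Finset.sum_singleton, Q]
      have hne : ∑ i ∈ A, g i ≠ ∑ i ∈ A, row v 0 i := by
        rcases classify hgen hg hval with ⟨j, rfl⟩ | ⟨k, rfl⟩
        · apply hA1
          rintro rfl
          exact heq rfl
        · exact hA2 k
      rw [if_neg hne, Finset.prod_congr rfl fun i _ => if_pos (hval i)]
      simp
    · rw [map_prod, Fintype.prod_option]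
      simp only [aeval_X, prolongation, Finset.sum_singleton, Q]
      push Not at hval
      obtain ⟨i, hi⟩ := hval
      rw [Finset.prod_eq_zero (Finset.mem_univ i) (if_neg hi), mul_zero]
    · simp
  rw [← coe_aeval_eq_eval]
  change (aeval (P v) : MvPolynomial (Fin n → G) ℂ →ₐ[ℂ] ℂ) p = 0
  rw [hcomp, AlgHom.comp_apply]
  have hp' : (treeMap (G := G) (prolongation A)) p = 0 := hp
  rw [hp', map_zero]

end Point

theorem fails_large (G : Type) [AddCommGroup G] [Finite G] (n : ℕ) (hn : 4 ≤ n)
    (hG : n ^ n + 2 * n * 2 ^ n < Nat.card G) : Fails G n n := by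
  have : NeZero n := ⟨by omega⟩
  obtain ⟨v, hv, hgen, hgA⟩ := exists_generic (G := G) (by omega : 3 ≤ n) hG
  obtain ⟨A, hA⟩ : ∃ A : Finset (Fin n), Admissible A := by
    obtain ⟨A, hA⟩ := Finset.exists_subset_card_eq
      (s := (Finset.univ : Finset (Fin n))) (n := 2) (by
        rw [Finset.card_univ, Fintype.card_fin]; omega)
    have h1 := Finset.card_compl_add_card A
    rw [Fintype.card_fin] at h1
    refine ⟨A, Finset.card_pos.1 (by omega), Finset.card_pos.1 (by omega), ?_, ?_⟩ <;> omega
  have hrow : ∀ j, j ≠ 0 → row v j ≠ row v 0 := by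
    intro j hj h
    exact (hgA A hA).1 j hj (by rw [h])
  have hcol : ∀ k, col v k ≠ row v 0 := by
    intro k h
    exact (hgA A hA).2 k (by rw [h])
  have hPr : ∀ j, P v (row v j) = if j = 0 then 2 else 1 := by
    intro j
    rw [P, if_pos (sum_row hv j), if_pos (val_row j)]
    by_cases h : j = 0
    · rw [if_pos h, if_pos (by rw [h])]
    · rw [if_neg h, if_neg (hrow j h)]
  have hPc : ∀ k, P v (col v k) = 1 := by
    intro k
    rw [P, if_pos (sum_col hv k), if_pos (val_col k), if_neg (hcol k)]
  refine fails_of_point (P v) (row v 0) ?_ (fun A hA p hp => eval_prol' hgen (hgA A hA).1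
    (hgA A hA).2 p hp) (F v) (F_mem hv) (F_hom v) ?_
  · rw [hPr, if_pos rfl]
    norm_num
  · rw [F, map_sub, map_prod, map_prod]
    simp only [eval_X, hPr, hPc, Finset.prod_const_one]
    rw [Finset.prod_ite_eq']
    simp
    norm_num

/-- For `G = ℤ/12` and `n = 4` there is a point of projective space which lies on `X(T, G)` for
every prolongation `T` of the claw `K_{1,4}` in which every vertex has degree at most `3`, but not
on `X(K_{1,4}, G)`, and the saturation of the sum of the ideals `I(X(T, G))` is neither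
`I(X(K_{1,4}, G))` nor its saturation. In particular the statement of Q1 is false. The same is true
for every `n ≥ 4` and every finite abelian group `G` of order greater than `n ^ n + 2 n 2 ^ n`, so
for each `n ≥ 4` for all but finitely many finite abelian groups. -/
theorem result :
    ((∃ x : (Fin 4 → ZMod 12) → ℂ, x ≠ 0 ∧
      (∀ A : Finset (Fin 4), Admissible A → ∀ p ∈ treeIdeal (ZMod 12) (prolongation A),
        eval x p = 0) ∧
      ∃ f ∈ treeIdeal (ZMod 12) (claw 4), f.IsHomogeneous 3 ∧ eval x f ≠ 0) ∧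
    saturation (prolongationSum (ZMod 12) 4) ≠ saturation (treeIdeal (ZMod 12) (claw 4)) ∧
    saturation (prolongationSum (ZMod 12) 4) ≠ (treeIdeal (ZMod 12) (claw 4) : Set _)) ∧
    (¬ ∀ (G : Type) [AddCommGroup G] [Finite G] (n : ℕ), 4 ≤ n →
      saturation (prolongationSum G n) = (treeIdeal G (claw n) : Set _)) ∧
    ∀ (G : Type) [AddCommGroup G] [Finite G] (n : ℕ), 4 ≤ n →
      n ^ n + 2 * n * 2 ^ n < Nat.card G →
      (∃ x : (Fin n → G) → ℂ, x ≠ 0 ∧
        (∀ A : Finset (Fin n), Admissible A → ∀ p ∈ treeIdeal G (prolongation A),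
          eval x p = 0) ∧
        ∃ f ∈ treeIdeal G (claw n), f.IsHomogeneous n ∧ eval x f ≠ 0) ∧
      saturation (prolongationSum G n) ≠ saturation (treeIdeal G (claw n)) ∧
      saturation (prolongationSum G n) ≠ (treeIdeal G (claw n) : Set _) :=
  ⟨fails_twelve, fun h => fails_twelve.2.2 (h (ZMod 12) 4 le_rfl),
    fun G _ _ n hn hG => fails_large G n hn hG⟩

end Pool.Agent.Results.MP_26e61c_ag.EveryDegree
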